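import Pool.Agent.H66.IQ.TD

/-!
# Board iq (MP_0f8dca_lc), row EXL (copy of `Pool.Agent.H69.IP.EXL` with general leaves)
-/

set_option autoImplicit false

open Finset Pool.Agent.H66.IQ

namespace Pool.Agent.H90.IQ

theorem pf_EXL : T_EXL := by
  classical
  intro V _ _ t y
  induction t with
  | lf c =>
    have hnn : ∀ x, (0 : ℝ) ≤ (if c.f y = true ∧ x ∈ c.Q y then 1 else 0) := by
      intro x
      split_ifs
      · exact zero_le_one
      · exact le_rfl
    refine ⟨fun x => if c.f y = true ∧ x ∈ c.Q y then 1 else 0, hnn, ?_, ?_⟩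
    · have h1 : ∀ x, (if c.f y = true ∧ x ∈ c.Q y then (1 : ℝ) else 0) ≤
          if x ∈ c.Q y then (1 : ℝ) else 0 := by
        intro x
        by_cases h : x ∈ c.Q y
        · rw [if_pos h]
          split_ifs
          · exact le_rfl
          · exact zero_le_one
        · rw [if_neg h, if_neg (fun hh => h hh.2)]
      refine (sum_le_sum fun x _ => h1 x).trans ?_
      rw [sum_ite_mem, univ_inter, sum_const, nsmul_eq_mul, mul_one]
      unfold Tr.wd
      exact Nat.cast_le.2 (le_sup (f := fun y => (c.Q y).card) (@mem_univ _ (_) y))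
    · intro y'
      have hs := sum_nonneg fun x (_ : x ∈ univ.filter (fun x => y x ≠ y' x)) => hnn x
      have hev : (Tr.lf c).ev y - (Tr.lf c).ev y' =
        (if c.f y = true then 1 else 0) - (if c.f y' = true then 1 else 0) := rfl
      rw [hev]
      by_cases hb : c.f y = true
      · by_cases hb' : c.f y' = true
        · rw [if_pos hb, if_pos hb', sub_self]
          exact hs
        · have h3 : ∃ v ∈ c.Q y, y' v ≠ y v := by
            by_contra hcon
            push Not at hcon
            exact hb' ((c.path y y' hcon).1.trans hb)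
          obtain ⟨v, hv, hne⟩ := h3
          have hz : v ∈ univ.filter (fun x => y x ≠ y' x) :=
            mem_filter.2 ⟨mem_univ _, fun h => hne h.symm⟩
          have h2 : (if c.f y = true ∧ v ∈ c.Q y then (1 : ℝ) else 0) = 1 := if_pos ⟨hb, hv⟩
          have h4 := single_le_sum (fun x (_ : x ∈ univ.filter (fun x => y x ≠ y' x)) => hnn x) hz
          rw [h2] at h4
          rw [if_pos hb, if_neg hb', sub_zero]
          exact h4
      · rw [if_neg hb, zero_sub]
        refine le_trans ?_ hs
        split_ifs
        · norm_num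
        · norm_num
  | av l r ihl ihr =>
    obtain ⟨a, ha0, ha1, ha2⟩ := ihl
    obtain ⟨b, hb0, hb1, hb2⟩ := ihr
    refine ⟨fun x => (a x + b x) / 2, fun x => by linarith [ha0 x, hb0 x], ?_, ?_⟩
    · rw [← sum_div, sum_add_distrib]
      have h1 : ((l.wd : ℕ) : ℝ) ≤ ((Tr.av l r).wd : ℕ) := by
        exact_mod_cast le_max_left l.wd r.wd
      have h2 : ((r.wd : ℕ) : ℝ) ≤ ((Tr.av l r).wd : ℕ) := by
        exact_mod_cast le_max_right l.wd r.wd
      linarith
    · intro y'
      have h1 := ha2 y'
      have h2 := hb2 y'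
      rw [← sum_div, sum_add_distrib]
      unfold Tr.ev
      linarith
  | ch l r ihl ihr =>
    obtain ⟨a, ha0, ha1, ha2⟩ := ihl
    obtain ⟨b, hb0, hb1, hb2⟩ := ihr
    rcases le_total (r.ev y) (l.ev y) with h | h
    · refine ⟨a, ha0, ha1.trans ?_, ?_⟩
      · exact_mod_cast le_max_left l.wd r.wd
      · intro y'
        have h1 := ha2 y'
        unfold Tr.ev
        rw [max_eq_left h]
        have := le_max_left (l.ev y') (r.ev y')
        linarith
    · refine ⟨b, hb0, hb1.trans ?_, ?_⟩
      · exact_mod_cast le_max_right l.wd r.wd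
      · intro y'
        have h1 := hb2 y'
        unfold Tr.ev
        rw [max_eq_right h]
        have := le_max_right (l.ev y') (r.ev y')
        linarith

end Pool.Agent.H90.IQ
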