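import Pool.Agent.H66.IQ.TE
import Pool.Agent.H70.EI.Targets

/-!
# Board iq (MP_0f8dca_lc), row LCX: an examination is a formula
-/

set_option autoImplicit false

namespace Pool.Agent.H90.IQ

open Finset Pool.Agent.H66.IQ Pool.Agent.H6.NB Pool.Agent.H70.OQ Pool.Agent.H70.EH
open Pool.Agent.H70.EI

open Classical in
/-- the correct paths of an examination -/
private theorem lcx_pth (k m : ℕ) (T : Exam k) : T.Small m →
    ∃ Ps : List (List ((Machine k × List Bool) × Bool)), Ps.length ≤ 2 ^ T.depth ∧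
      (∀ τ ∈ Ps, τ.length ≤ T.depth ∧ ∀ c ∈ τ, c.1.2.length ^ c.1.1.c + c.1.1.c ≤ m) ∧
      ∀ O, (T.eval O = true ↔ ∃ τ ∈ Ps, ∀ c ∈ τ, decide (c.1.2 ∈ c.1.1.lang O) = c.2) := by
  induction T with
  | leaf b =>
    intro _
    cases b
    · exact ⟨[], by simp, by simp, fun O => by simp [Exam.eval]⟩
    · exact ⟨[[]], by simp [Exam.depth], by simp, fun O => by simp [Exam.eval]⟩
  | node M x l r ihl ihr =>
    rintro ⟨hw, hl, hr⟩
    obtain ⟨Pl, l1, l2, l3⟩ := ihl hl
    obtain ⟨Pr, r1, r2, r3⟩ := ihr hr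
    refine ⟨Pl.map (fun τ => ((M, x), false) :: τ) ++ Pr.map (fun τ => ((M, x), true) :: τ),
      ?_, ?_, ?_⟩
    · rw [List.length_append, List.length_map, List.length_map]
      have e1 : 2 ^ l.depth ≤ 2 ^ max l.depth r.depth :=
        Nat.pow_le_pow_right (by norm_num) (le_max_left _ _)
      have e2 : 2 ^ r.depth ≤ 2 ^ max l.depth r.depth :=
        Nat.pow_le_pow_right (by norm_num) (le_max_right _ _)
      have e3 : 2 ^ (Exam.node M x l r).depth = 2 ^ max l.depth r.depth * 2 := by
        rw [Exam.depth, pow_succ]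
      rw [e3]
      omega
    · intro τ hτ
      rw [List.mem_append, List.mem_map, List.mem_map] at hτ
      rcases hτ with ⟨a, ha, rfl⟩ | ⟨a, ha, rfl⟩
      · obtain ⟨h1, h2⟩ := l2 a ha
        refine ⟨?_, ?_⟩
        · rw [List.length_cons, Exam.depth]
          have := le_max_left l.depth r.depth
          omega
        · intro c hc
          rcases List.mem_cons.1 hc with rfl | hc
          · exact hw
          · exact h2 c hc
      · obtain ⟨h1, h2⟩ := r2 a ha
        refine ⟨?_, ?_⟩
        · rw [List.length_cons, Exam.depth]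
          have := le_max_right l.depth r.depth
          omega
        · intro c hc
          rcases List.mem_cons.1 hc with rfl | hc
          · exact hw
          · exact h2 c hc
    · intro O
      rw [Exam.eval]
      have key : (∃ τ ∈ Pl.map (fun τ => ((M, x), false) :: τ) ++
          Pr.map (fun τ => ((M, x), true) :: τ),
          ∀ c ∈ τ, decide (c.1.2 ∈ c.1.1.lang O) = c.2) ↔
          (decide (x ∈ M.lang O) = false ∧
            ∃ τ ∈ Pl, ∀ c ∈ τ, decide (c.1.2 ∈ c.1.1.lang O) = c.2) ∨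
          (decide (x ∈ M.lang O) = true ∧
            ∃ τ ∈ Pr, ∀ c ∈ τ, decide (c.1.2 ∈ c.1.1.lang O) = c.2) := by
        constructor
        · rintro ⟨τ, hτ, h⟩
          rw [List.mem_append, List.mem_map, List.mem_map] at hτ
          rcases hτ with ⟨a, ha, rfl⟩ | ⟨a, ha, rfl⟩
          · exact Or.inl ⟨h ((M, x), false) (List.mem_cons_self ..), a, ha,
              fun c hc => h c (List.mem_cons_of_mem _ hc)⟩
          · exact Or.inr ⟨h ((M, x), true) (List.mem_cons_self ..), a, ha,
              fun c hc => h c (List.mem_cons_of_mem _ hc)⟩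
        · rintro (⟨h1, a, ha, h⟩ | ⟨h1, a, ha, h⟩)
          · refine ⟨((M, x), false) :: a, List.mem_append_left _ (List.mem_map_of_mem ha), ?_⟩
            intro c hc
            rcases List.mem_cons.1 hc with rfl | hc
            · exact h1
            · exact h c hc
          · refine ⟨((M, x), true) :: a, List.mem_append_right _ (List.mem_map_of_mem ha), ?_⟩
            intro c hc
            rcases List.mem_cons.1 hc with rfl | hc
            · exact h1
            · exact h c hc
      rw [key]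
      by_cases h : x ∈ M.lang O
      · rw [if_pos h, r3 O]
        simp [h]
      · rw [if_neg h, l3 O]
        simp [h]

theorem pf_LCX (hLCL : Pool.Agent.H70.EI.T_LCL) (hCLB : Pool.Agent.H6.NB.T_CLB) : T_LCX := by
  classical
  intro X k m S T O hS hm hL hd hT
  obtain ⟨-, -, -, hC4, -⟩ := hCLB X S hS
  obtain ⟨Ps, h1, h2, h3⟩ := lcx_pth k m T hT
  have hmS : 2 ^ m ≤ S := (Nat.pow_le_pow_right (by norm_num) (Nat.le_succ m)).trans hm
  have hmS' : m ≤ S := (Nat.lt_two_pow_self).le.trans hmS
  have hq : ∀ c : Machine k × List Bool, c.2.length ^ c.1.c + c.1.c ≤ m →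
      Cl X S (k + 3) fun y => decide (c.2 ∈ c.1.lang (O y)) := by
    rintro ⟨M, x⟩ hc
    have h4 := hLCL X S (x.length ^ M.c + M.c) k (fun ws => M.tree x ws) O hS
      ((Nat.pow_le_pow_right (by norm_num) (Nat.succ_le_succ hc)).trans hm) hL
      (fun ws hl hws => ⟨M.depth_le x ws hl hws, M.short x ws hl hws⟩)
    have e : (fun y : X → Bool => decide (Alt (fun w => w.length ≤ x.length ^ M.c + M.c) true k
        fun ws => (M.tree x ws).eval (O y) = true)) = fun y => decide (x ∈ M.lang (O y)) := by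
      funext y
      rw [decide_eq_decide]
      exact Iff.rfl
    rw [← e]
    exact h4
  have hD : ∀ τ ∈ Ps, Cl X S (k + 4) fun y =>
      decide (∃ c ∈ τ, decide (c.1.2 ∈ c.1.1.lang (O y)) = !c.2) := by
    intro τ hτ
    obtain ⟨h4, h5⟩ := h2 τ hτ
    refine hC4 (k + 3) (τ.map fun c => (fun y => decide (c.1.2 ∈ c.1.1.lang (O y)), !c.2)) _ ?_ ?_ ?_
    · rw [List.length_map]
      omega
    · intro c hc
      obtain ⟨a, ha, rfl⟩ := List.mem_map.1 hc
      exact hq a.1 (h5 a ha)
    · intro y
      rw [decide_eq_true_iff]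
      constructor
      · rintro ⟨c, hc, h⟩
        exact ⟨_, List.mem_map_of_mem hc, h⟩
      · rintro ⟨c, hc, h⟩
        obtain ⟨a, ha, rfl⟩ := List.mem_map.1 hc
        exact ⟨a, ha, h⟩
  refine hC4 (k + 4) (Ps.map fun τ => (fun y =>
    decide (∃ c ∈ τ, decide (c.1.2 ∈ c.1.1.lang (O y)) = !c.2), false)) _ ?_ ?_ ?_
  · rw [List.length_map]
    exact h1.trans ((Nat.pow_le_pow_right (by norm_num) hd).trans hmS)
  · intro c hc
    obtain ⟨τ, hτ, rfl⟩ := List.mem_map.1 hc
    exact hD τ hτ
  · intro y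
    rw [h3 (O y)]
    have hb : ∀ a b : Bool, ¬ (a = !b) ↔ a = b := by decide
    constructor
    · rintro ⟨τ, hτ, h⟩
      refine ⟨_, List.mem_map_of_mem hτ, ?_⟩
      rw [decide_eq_false_iff_not]
      rintro ⟨c, hc, h6⟩
      exact (hb _ _).2 (h c hc) h6
    · rintro ⟨c, hc, h⟩
      obtain ⟨τ, hτ, rfl⟩ := List.mem_map.1 hc
      refine ⟨τ, hτ, fun c hc => ?_⟩
      rw [decide_eq_false_iff_not] at h
      exact (hb _ _).1 fun h6 => h ⟨c, hc, h6⟩

end Pool.Agent.H90.IQ
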